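import Mathlib
import Pool.Agent.V11150.DomaticUnion

set_option autoImplicit false

namespace Pool.Agent.Results.MP_2ce84e_co.NoFormulaA

open Pool.Agent.V11150.DomaticGame SimpleGraph

/-- Q1 of MP_2ce84e_co (negative answer): there are connected finite graphs `G`, `H`, `H'` such
that `H` and `H'` have the same game domatic number and the same delayed game domatic number, but
`G ∪ H` and `G ∪ H'` have different game domatic numbers. In particular there is no function
expressing the game domatic number of a disjoint union through the four numbers of the parts. -/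
theorem result :
    (∃ (V W W' : Type) (_ : Finite V) (_ : Finite W) (_ : Finite W') (G : SimpleGraph V)
      (H : SimpleGraph W) (H' : SimpleGraph W'), G.Connected ∧ H.Connected ∧ H'.Connected ∧
      gammaA H = gammaA H' ∧ gammaB H = gammaB H' ∧ gammaA (G ⊕g H) ≠ gammaA (G ⊕g H')) ∧
    ¬ ∃ f : ℕ → ℕ → ℕ → ℕ → ℕ, ∀ (V W : Type) (_ : Finite V) (_ : Finite W) (_ : Nonempty V)
      (_ : Nonempty W) (G : SimpleGraph V) (H : SimpleGraph W),
      gammaA (G ⊕g H) = f (gammaA G) (gammaB G) (gammaA H) (gammaB H) := by
  refine ⟨⟨Fin 2, Fin 3, Fin 6, inferInstance, inferInstance, inferInstance, K2, K3, TT,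
    connected_K2, connected_K3, connected_TT, ?_, ?_, ?_⟩, ?_⟩
  · rw [gammaA_K3, gammaA_TT]
  · rw [gammaB_K3, gammaB_TT]
  · rw [gammaA_union_K3, gammaA_union_TT]
    norm_num
  · rintro ⟨f, hf⟩
    have h1 := hf (Fin 2) (Fin 3) inferInstance inferInstance inferInstance inferInstance K2 K3
    have h2 := hf (Fin 2) (Fin 6) inferInstance inferInstance inferInstance inferInstance K2 TT
    rw [gammaA_union_K3, gammaA_K3, gammaB_K3] at h1
    rw [gammaA_union_TT, gammaA_TT, gammaB_TT, ← h1] at h2
    norm_num at h2

end Pool.Agent.Results.MP_2ce84e_co.NoFormulaA
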